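import Pool.Agent.Helper61.QE.St2

/-!
# Project QD, part E, module ULM: Montel along an ultrafilter
-/

open MeasureTheory Set Filter Topology Complex
open scoped ContDiff ComplexConjugate ENNReal

namespace Pool.Agent.Helper26.QE

open Pool.Agent.Helper61.QE

/-- Lipschitz bound from the Cauchy estimate. -/
theorem lip {h : ℂ → ℂ} {x : ℂ} {r C : ℝ} (hr : 0 < r)
    (hd : DifferentiableOn ℂ h (Metric.closedBall x (2 * r)))
    (hC : ∀ z ∈ Metric.closedBall x (2 * r), ‖h z‖ ≤ C) :
    ∀ y ∈ Metric.ball x r, ∀ z ∈ Metric.ball x r, ‖h z - h y‖ ≤ C / r * ‖z - y‖ := by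
  intro y hy z hz
  have hsub : ∀ w ∈ Metric.ball x r, Metric.closedBall w r ⊆ Metric.closedBall x (2 * r) := by
    intro w hw v hv
    rw [Metric.mem_closedBall] at hv ⊢
    have h1 : dist w x < r := Metric.mem_ball.1 hw
    have h2 := dist_triangle v w x
    linarith
  have hb : Metric.ball x r ⊆ Metric.closedBall x (2 * r) := fun w hw =>
    hsub w hw (Metric.mem_closedBall_self hr.le)
  have hda : ∀ w ∈ Metric.ball x r, DifferentiableAt ℂ h w := by
    intro w hw
    refine hd.differentiableAt (Filter.mem_of_superset (Metric.closedBall_mem_nhds w hr) (hsub w hw))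
  refine (convex_ball x r).norm_image_sub_le_of_norm_deriv_le hda ?_ hy hz
  intro w hw
  refine Complex.norm_deriv_le_of_forall_mem_sphere_norm_le hr ?_ ?_
  · have h1 : DifferentiableOn ℂ h (Metric.closedBall w r) := hd.mono (hsub w hw)
    refine DifferentiableOn.diffContOnCl ?_
    rw [closure_ball w hr.ne']
    exact h1
  · intro v hv
    exact hC v (hsub w hw (Metric.sphere_subset_closedBall hv))

/-- ULM. -/
theorem pULM : StULM := by
  classical
  intro U f V hV hf hb
  have hpt : ∀ z : ℂ, ∃ a : ℂ, z ∈ V → Tendsto (fun n => f n z) (U : Filter ℕ) (𝓝 a) := by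
    intro z
    by_cases hz : z ∈ V
    · obtain ⟨C, hC⟩ := hb {z} (singleton_subset_iff.2 hz) isCompact_singleton
      have hmem : ∀ n, f n z ∈ Metric.closedBall (0 : ℂ) C := fun n => by
        rw [mem_closedBall_zero_iff]
        exact hC n z rfl
      obtain ⟨a, -, ha⟩ := (isCompact_closedBall (0 : ℂ) C).ultrafilter_le_nhds
        (U.map fun n => f n z) (by
          rw [le_principal_iff]
          exact Filter.mem_map.2 (Filter.univ_mem' hmem))
      exact ⟨a, fun _ => ha⟩
    · exact ⟨0, fun h => absurd h hz⟩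
  choose g hg using hpt
  have hloc : TendstoLocallyUniformlyOn f g (U : Filter ℕ) V := by
    rw [Metric.tendstoLocallyUniformlyOn_iff]
    intro ε hε x hx
    obtain ⟨ρ, hρ, hρV⟩ := Metric.isOpen_iff.1 hV x hx
    have hr : 0 < ρ / 3 := by positivity
    have hsub : Metric.closedBall x (2 * (ρ / 3)) ⊆ V := by
      refine (Metric.closedBall_subset_ball ?_).trans hρV
      linarith
    obtain ⟨C, hC⟩ := hb _ hsub (isCompact_closedBall x _)
    have hC0 : 0 ≤ C := (norm_nonneg _).trans
      (hC 0 x (Metric.mem_closedBall_self (by positivity)))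
    obtain ⟨L, hL⟩ : ∃ L : ℝ, L = C / (ρ / 3) := ⟨_, rfl⟩
    have hL0 : 0 ≤ L := by
      rw [hL]
      positivity
    have hlip : ∀ n, ∀ y ∈ Metric.ball x (ρ / 3), ‖f n y - f n x‖ ≤ L * ‖y - x‖ := by
      intro n y hy
      rw [hL]
      exact lip hr ((hf n).mono hsub) (hC n) x (Metric.mem_ball_self hr) y hy
    have hglip : ∀ y ∈ Metric.ball x (ρ / 3), ‖g y - g x‖ ≤ L * ‖y - x‖ := by
      intro y hy
      have hyV : y ∈ V := by
        apply hsub
        exact Metric.ball_subset_closedBall (Metric.ball_subset_ball (by linarith) hy)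
      have h1 : Tendsto (fun n => ‖f n y - f n x‖) (U : Filter ℕ) (𝓝 ‖g y - g x‖) :=
        ((hg y hyV).sub (hg x hx)).norm
      exact le_of_tendsto h1 (Eventually.of_forall fun n => hlip n y hy)
    obtain ⟨δ, hδ⟩ : ∃ δ : ℝ, δ = min (ρ / 3) (ε / (3 * (L + 1))) := ⟨_, rfl⟩
    have hδ0 : 0 < δ := by
      rw [hδ]
      exact lt_min hr (by positivity)
    have hδ1 : δ ≤ ρ / 3 := hδ ▸ min_le_left _ _
    have hδ2 : L * δ ≤ ε / 3 := by
      have h1 : δ ≤ ε / (3 * (L + 1)) := hδ ▸ min_le_right _ _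
      have h2 : L * δ ≤ L * (ε / (3 * (L + 1))) := mul_le_mul_of_nonneg_left h1 hL0
      have h3 : L * (ε / (3 * (L + 1))) = ε / 3 * (L / (L + 1)) := by
        field_simp
      have h4 : L / (L + 1) ≤ 1 := by
        rw [div_le_one (by positivity)]
        linarith
      have h5 : ε / 3 * (L / (L + 1)) ≤ ε / 3 := mul_le_of_le_one_right (by positivity) h4
      linarith
    refine ⟨Metric.ball x δ, mem_nhdsWithin_of_mem_nhds (Metric.ball_mem_nhds x hδ0), ?_⟩
    have hev : ∀ᶠ n in (U : Filter ℕ), dist (f n x) (g x) < ε / 3 :=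
      (Metric.tendsto_nhds.1 (hg x hx)) (ε / 3) (by positivity)
    filter_upwards [hev] with n hn y hy
    have hyr : y ∈ Metric.ball x (ρ / 3) := Metric.ball_subset_ball hδ1 hy
    have hyd : ‖y - x‖ ≤ δ := by
      rw [← dist_eq_norm]
      exact (Metric.mem_ball.1 hy).le
    have a1 : dist (g y) (g x) ≤ ε / 3 := by
      rw [dist_eq_norm]
      exact (hglip y hyr).trans ((mul_le_mul_of_nonneg_left hyd hL0).trans hδ2)
    have a2 : dist (f n x) (f n y) ≤ ε / 3 := by
      rw [dist_comm, dist_eq_norm]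
      exact (hlip n y hyr).trans ((mul_le_mul_of_nonneg_left hyd hL0).trans hδ2)
    have a3 : dist (g x) (f n x) < ε / 3 := by
      rw [dist_comm]
      exact hn
    have t1 := dist_triangle (g y) (g x) (f n y)
    have t2 := dist_triangle (g x) (f n x) (f n y)
    linarith
  exact ⟨g, hloc.differentiableOn (Eventually.of_forall hf) hV, hloc⟩

end Pool.Agent.Helper26.QE
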