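import Pool.Agent.Helper61.QE.St4
import Pool.Agent.Helper26.QE.PULM

/-!
# Project QD, part E, module HDV: the derivative is holomorphic in the parameter
-/

open MeasureTheory Set Filter Topology Complex
open scoped ContDiff ComplexConjugate ENNReal

namespace Pool.Agent.Helper26.QE

open Pool.Agent.Helper61.QE

/-- HDV. -/
theorem pHDV : StHDV := by
  intro f hf1 hf2 hb z hz
  have hz1 : ‖z‖ < 1 := mem_ball_zero_iff.1 hz
  obtain ⟨r, hr⟩ : ∃ r : ℝ, r = (1 - ‖z‖) / 4 := ⟨_, rfl⟩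
  have hr0 : 0 < r := by
    rw [hr]
    linarith
  have hball : ∀ w ∈ Metric.closedBall z (2 * r), ‖w‖ ≤ (1 + ‖z‖) / 2 := by
    intro w hw
    have h1 : ‖w - z‖ ≤ 2 * r := mem_closedBall_iff_norm.1 hw
    have h2 : ‖w‖ ≤ ‖w - z‖ + ‖z‖ := by
      have := norm_add_le (w - z) z
      rwa [sub_add_cancel] at this
    rw [hr] at h1
    linarith
  have hballD : Metric.closedBall z (2 * r) ⊆ D := by
    intro w hw
    rw [mem_ball_zero_iff]
    have := hball w hw
    linarith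
  obtain ⟨a, ha⟩ : ∃ a : ℕ → ℂ, a = fun n : ℕ => ((r / ((n : ℝ) + 2) : ℝ) : ℂ) := ⟨_, rfl⟩
  have han : ∀ n, a n = ((r / ((n : ℝ) + 2) : ℝ) : ℂ) := fun n => by rw [ha]
  have hapos : ∀ n : ℕ, 0 < r / ((n : ℝ) + 2) := fun n => by positivity
  have ha0 : ∀ n, a n ≠ 0 := fun n => by
    rw [han]
    exact_mod_cast (hapos n).ne'
  have hanorm : ∀ n, ‖a n‖ = r / ((n : ℝ) + 2) := fun n => by
    rw [han, Complex.norm_real, Real.norm_eq_abs, abs_of_pos (hapos n)]
  have hlt : ∀ n, ‖a n‖ < r := fun n => by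
    rw [hanorm, div_lt_iff₀ (by positivity)]
    have : (0 : ℝ) ≤ n := Nat.cast_nonneg n
    nlinarith
  have hmem : ∀ n, z + a n ∈ Metric.ball z r := fun n => by
    rw [mem_ball_iff_norm, add_sub_cancel_left]
    exact hlt n
  have hmemD : ∀ n, z + a n ∈ D := fun n =>
    hballD (Metric.ball_subset_closedBall (Metric.ball_subset_ball (by linarith) (hmem n)))
  have hlim : Tendsto a atTop (𝓝[≠] 0) := by
    rw [tendsto_nhdsWithin_iff]
    refine ⟨?_, Eventually.of_forall ha0⟩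
    rw [tendsto_zero_iff_norm_tendsto_zero]
    have h1 : Tendsto (fun n : ℕ => r / ((n : ℝ) + 2)) atTop (𝓝 0) :=
      (tendsto_natCast_atTop_atTop.atTop_add tendsto_const_nhds).const_div_atTop r
    exact h1.congr fun n => (hanorm n).symm
  obtain ⟨g, hg⟩ : ∃ g : ℕ → ℂ → ℂ, g = fun n t => (a n)⁻¹ • (f t (z + a n) - f t z) := ⟨_, rfl⟩
  have hgn : ∀ n t, g n t = (a n)⁻¹ • (f t (z + a n) - f t z) := fun n t => by rw [hg]
  have hgd : ∀ n, DifferentiableOn ℂ (g n) D := by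
    intro n
    have h1 : DifferentiableOn ℂ (fun t => (a n)⁻¹ • (f t (z + a n) - f t z)) D :=
      ((hf2 (z + a n) (hmemD n)).sub (hf2 z hz)).const_smul (a n)⁻¹
    rw [hg]
    exact h1
  have hgb : ∀ K ⊆ D, IsCompact K → ∃ C : ℝ, ∀ n, ∀ t ∈ K, ‖g n t‖ ≤ C := by
    intro K hK hKc
    have hρ : ∃ ρ < 1, ∀ t ∈ K, ‖t‖ ≤ ρ := by
      rcases K.eq_empty_or_nonempty with rfl | hne
      · exact ⟨0, zero_lt_one, fun t ht => absurd ht (notMem_empty t)⟩
      · obtain ⟨t0, ht0, hmax⟩ := hKc.exists_isMaxOn hne continuous_norm.continuousOn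
        exact ⟨‖t0‖, mem_ball_zero_iff.1 (hK ht0), fun t ht => hmax ht⟩
    obtain ⟨ρ, hρ1, hρ⟩ := hρ
    obtain ⟨C, hC⟩ := hb (max ρ ((1 + ‖z‖) / 2)) (max_lt hρ1 (by linarith))
    refine ⟨C / r, fun n t ht => ?_⟩
    have h1 := lip hr0 ((hf1 t (hK ht)).mono hballD)
      (fun w hw => hC t w ((hρ t ht).trans (le_max_left _ _))
        ((hball w hw).trans (le_max_right _ _)))
      z (Metric.mem_ball_self hr0) (z + a n) (hmem n)
    rw [add_sub_cancel_left] at h1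
    rw [hgn, norm_smul, norm_inv]
    have h2 : 0 < ‖a n‖ := norm_pos_iff.2 (ha0 n)
    rw [inv_mul_le_iff₀ h2, mul_comm ‖a n‖]
    exact h1
  obtain ⟨G, hG1, hG2⟩ := pULM (hyperfilter ℕ) g D Metric.isOpen_ball hgd hgb
  refine hG1.congr fun t ht => ?_
  have hle : (hyperfilter ℕ : Filter ℕ) ≤ atTop := by
    rw [← Nat.cofinite_eq_atTop]
    exact hyperfilter_le_cofinite
  have h1 : Tendsto (fun n => g n t) (hyperfilter ℕ : Filter ℕ) (𝓝 (G t)) := hG2.tendsto_at ht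
  have h2 : Tendsto (fun n => g n t) (hyperfilter ℕ : Filter ℕ) (𝓝 (deriv (f t) z)) := by
    have hd : HasDerivAt (f t) (deriv (f t) z) z :=
      ((hf1 t ht).differentiableAt (Metric.isOpen_ball.mem_nhds hz)).hasDerivAt
    rw [hasDerivAt_iff_tendsto_slope_zero] at hd
    have h3 := (hd.comp hlim).mono_left hle
    exact h3.congr fun n => (hgn n t).symm
  exact tendsto_nhds_unique h2 h1

end Pool.Agent.Helper26.QE
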