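import Pool.Agent.Helper61.QE.St3
import Pool.Agent.Helper80.Bieb.AreaUpper

/-!
# Project QD, part E, module BDS: the frontier is contained in the concentration set
-/

open MeasureTheory Set Filter Topology Complex
open scoped ContDiff ComplexConjugate ENNReal

namespace Pool.Agent.Helper26.QE

open Pool.Agent.Helper61.QE Pool.Agent.Helper68.QC

/-- Elements of `SU(1,1)` map the disc into itself. -/
theorem norm_mob_lt (hSUB : StSUB) (A : SL) (hA : SU A) (z : ℂ) (hz : z ∈ D) : ‖mob A z‖ < 1 := by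
  obtain ⟨-, -, -, h4, h5, -⟩ := hSUB
  have hz1 : ‖z‖ < 1 := mem_ball_zero_iff.1 hz
  have hd := h4 A hA z hz1.le
  have h := h5 A hA z hd
  have h2 : 0 < 1 - ‖z‖ ^ 2 := by
    have := norm_nonneg z
    nlinarith
  have h3 : 0 < ‖den A z‖ ^ 2 := by positivity
  rw [← h] at h2
  have h6 : 0 < 1 - ‖mob A z‖ ^ 2 := pos_of_mul_pos_left h2 h3.le
  have := norm_nonneg (mob A z)
  nlinarith

/-- Images of a smaller closed disc under finitely many elements. -/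
theorem finite_bound (hSUB : StSUB) {Γ : Type} [Group Γ] (s : Γ →* SL) (hs : ∀ γ, SU (js s γ))
    (r : ℝ) (hr : r < 1) (B : Set Γ) (hB : B.Finite) :
    ∃ ρ : ℝ, ρ < 1 ∧ ∀ γ ∈ B, ∀ w, ‖w‖ ≤ r → ‖mob (js s γ) w‖ ≤ ρ := by
  induction B, hB using Set.Finite.induction_on with
  | empty => exact ⟨0, zero_lt_one, fun γ hγ => absurd hγ (notMem_empty γ)⟩
  | @insert a B _ _ ih =>
    obtain ⟨ρ, hρ, hB⟩ := ih
    have ha : ∃ ρ' : ℝ, ρ' < 1 ∧ ∀ w, ‖w‖ ≤ r → ‖mob (js s a) w‖ ≤ ρ' := by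
      rcases lt_or_ge r 0 with h0 | h0
      · exact ⟨0, zero_lt_one, fun w hw => absurd ((norm_nonneg w).trans hw) (not_le.2 h0)⟩
      have hc : ContinuousOn (fun w => ‖mob (js s a) w‖) (Metric.closedBall 0 r) := by
        intro w hw
        have hw1 : ‖w‖ ≤ 1 := (mem_closedBall_zero_iff.1 hw).trans hr.le
        have hd := hSUB.2.2.2.1 (js s a) (hs a) w hw1
        exact (hSUB.2.1 (js s a) w hd).continuousAt.norm.continuousWithinAt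
      obtain ⟨w0, hw0, hmax⟩ := (isCompact_closedBall (0 : ℂ) r).exists_isMaxOn
        ⟨0, Metric.mem_closedBall_self h0⟩ hc
      refine ⟨‖mob (js s a) w0‖, norm_mob_lt hSUB _ (hs a) w0 ?_, fun w hw => ?_⟩
      · exact Metric.closedBall_subset_ball hr hw0
      · exact hmax (mem_closedBall_zero_iff.2 hw)
    obtain ⟨ρ', hρ', ha⟩ := ha
    refine ⟨max ρ ρ', max_lt hρ hρ', fun γ hγ w hw => ?_⟩
    rcases hγ with rfl | hγ
    · exact (ha w hw).trans (le_max_right _ _)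
    · exact (hB γ hγ w hw).trans (le_max_left _ _)

/-- Finitely many small entries. -/
theorem finite_small {Γ : Type} [Group Γ] (c : Γ → ℂ) (hc : ∀ γ, γ ≠ 1 → c γ ≠ 0) (C : ℝ)
    (hC : ∀ T : Finset Γ, 1 ∉ T → ∑ γ ∈ T, (‖c γ‖ ^ 4)⁻¹ ≤ C) (K : ℝ) (hK : 0 < K) :
    {γ : Γ | γ ≠ 1 ∧ ‖c γ‖ ≤ K}.Finite := by
  by_contra hinf
  obtain ⟨n, hn⟩ := exists_nat_gt (C * K ^ 4)
  obtain ⟨T, hT, hTn⟩ := Set.Infinite.exists_subset_card_eq (s := {γ : Γ | γ ≠ 1 ∧ ‖c γ‖ ≤ K})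
    hinf n
  have h1 : 1 ∉ T := fun h => (hT h).1 rfl
  have h2 := hC T h1
  have h3 : ∑ γ ∈ T, (K ^ 4)⁻¹ ≤ ∑ γ ∈ T, (‖c γ‖ ^ 4)⁻¹ := by
    apply Finset.sum_le_sum
    intro γ hγ
    have h4 := hT hγ
    have h5 : 0 < ‖c γ‖ := norm_pos_iff.2 (hc γ h4.1)
    apply inv_anti₀ (by positivity)
    exact pow_le_pow_left₀ h5.le h4.2 4
  rw [Finset.sum_const, hTn, nsmul_eq_mul] at h3
  have h6 : (n : ℝ) * (K ^ 4)⁻¹ ≤ C := h3.trans h2
  rw [← div_eq_mul_inv, div_le_iff₀ (by positivity)] at h6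
  linarith

/-- The computation for `(P u)⁻¹`. -/
theorem inv_formula (B : SL) (X Y : ℂ) (hc : B 1 0 ≠ 0) (hY : pl B * Y = 1)
    (hd : den (jj B) X ≠ 0) (hXY : Y - X ≠ 0) :
    (mob (jj B) X)⁻¹ - cn B = -(X * Y) / (B 1 0 ^ 2 * (Y - X)) := by
  have hdet : B 0 0 * B 1 1 - B 0 1 * B 1 0 = 1 := by
    have h := B.det_coe
    rwa [Matrix.det_fin_two] at h
  have e1 : den (jj B) X = B 0 1 * X + B 0 0 := rfl
  have e2 : mob (jj B) X = (B 1 1 * X + B 1 0) / (B 0 1 * X + B 0 0) := rfl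
  rw [e1] at hd
  rw [e2, inv_div]
  have h3 : -B 1 1 * Y = B 1 0 := by
    have h4 : pl B = -B 1 1 / B 1 0 := rfl
    rw [h4, div_mul_eq_mul_div, div_eq_one_iff_eq hc] at hY
    exact hY
  have hYne : Y ≠ 0 := by
    intro h
    rw [h, mul_zero] at h3
    exact hc h3.symm
  -- numerator: `B11 X + B10 = B10 (Y - X) / Y`
  have h5 : (B 1 1 * X + B 1 0) * Y = B 1 0 * (Y - X) := by
    linear_combination (-X) * h3
  have h6 : B 1 1 * X + B 1 0 ≠ 0 := by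
    intro h
    rw [h, zero_mul] at h5
    exact mul_ne_zero hc hXY h5.symm
  have h7 : cn B = B 0 0 / B 1 0 := rfl
  rw [h7, div_sub_div _ _ h6 hc, div_eq_div_iff (mul_ne_zero h6 hc)
    (mul_ne_zero (pow_ne_zero 2 hc) hXY)]
  -- use `B10 (Y - X) = (B11 X + B10) Y`
  have h8 : B 1 0 ^ 2 * (Y - X) = B 1 0 * ((B 1 1 * X + B 1 0) * Y) := by
    rw [h5]
    ring
  rw [h8]
  linear_combination (-(X * (B 1 1 * X + B 1 0) * B 1 0 * Y)) * hdet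

/-- BDS. -/
theorem pBDS (hSUB : StSUB) (hFUX : StFUX) (hMBF : StMBF) (hSNE : StSNE) (hSNX : StSNX)
    (hEQP : StEQP) (hSIN : StSIN) (hSS2 : StSS2) (hSEP : StSEP) : StBDS := by
  intro Γ _ s F h t0 G N R R' U P ν Ri Ri' hFu hFD ht0 hSq hLm x0 hx0 η hη
  obtain ⟨-, hFj, -, -, -⟩ := hFUX Γ s hFu
  obtain ⟨-, hSc, -⟩ := hSNE U G hSq.gd
  have hsnx := hSNX U G P hSq.gd hLm.phol hLm.pinj hLm.pzero hLm.pcon
  obtain ⟨hE1, -, hE3, C4, hE4⟩ := hEQP Γ s F h t0 G N R R' U P ν Ri Ri' hFu ht0 hSq hLm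
  have hsin := hSIN Γ s F h t0 G N R R' U P ν Ri Ri' hFu hFD ht0 hSq hLm
  obtain ⟨y1, hy1, y2, hy2, hy12⟩ := hSS2 Γ s F h t0 G N R R' U P ν Ri Ri' hFu hFD ht0 hSq hLm
  obtain ⟨g, hg⟩ : ∃ g : ℂ → ℂ, g = fun u => P u / (1 - x0 * P u) := ⟨_, rfl⟩
  rw [← hg] at hη
  have hden : ∀ u ∈ D, 1 - x0 * P u ≠ 0 := by
    intro u hu h0
    exact hsnx x0 hx0 u hu (sub_eq_zero.1 h0).symm
  have hgd : DifferentiableOn ℂ g D := by
    rw [hg]
    exact hLm.phol.div ((differentiableOn_const 1).sub (hLm.phol.const_mul x0)) hden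
  have hgi : InjOn g D := by
    intro a ha b hb hab
    rw [hg] at hab
    have hab' : P a / (1 - x0 * P a) = P b / (1 - x0 * P b) := hab
    rw [div_eq_div_iff (hden a ha) (hden b hb)] at hab'
    apply hLm.pinj ha hb
    linear_combination hab'
  have hgo : IsOpen (g '' D) :=
    Pool.Agent.Helper80.Bieb.isOpen_image_of_injOn Metric.isOpen_ball hgd hgi
  have hηn : η ∉ g '' D := by
    have h1 := hη.2
    rwa [hgo.interior_eq] at h1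
  have hηc : η ∈ closure (g '' D) := hη.1
  have h0D : (0 : ℂ) ∈ D := Metric.mem_ball_self one_pos
  have hg0 : g 0 = 0 := by
    rw [hg]
    change P 0 / (1 - x0 * P 0) = 0
    rw [hLm.pzero, zero_div]
  have hη0 : η ≠ 0 := by
    intro h0
    apply hηn
    rw [h0]
    exact ⟨0, h0D, hg0⟩
  refine ⟨hη0, ?_⟩
  rw [← hSc.closure_eq, Metric.mem_closure_iff]
  intro ε hε
  -- constants
  obtain ⟨r, hr1, hcoc⟩ := hFj.coc
  have hr0 : 0 ≤ r := by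
    obtain ⟨γ, hγ⟩ := hcoc 0 h0D
    exact (norm_nonneg _).trans hγ
  obtain ⟨r', hr'⟩ : ∃ r' : ℝ, r' = (1 + r) / 2 := ⟨_, rfl⟩
  have hrr' : r < r' := by linarith
  have hr'1 : r' < 1 := by linarith
  obtain ⟨C, hC0, hC⟩ := hSEP P hLm.phol hLm.pinj r r' hr0 hrr' hr'1
  have hδ : 0 < ‖y1 - y2‖ := norm_pos_iff.2 (sub_ne_zero.2 hy12)
  obtain ⟨K, hK⟩ : ∃ K : ℝ, K = 1 + (2 / ‖y1 - y2‖ + C) * (2 / ε) := ⟨_, rfl⟩
  have hK1 : 1 ≤ K := by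
    rw [hK]
    have : 0 ≤ (2 / ‖y1 - y2‖ + C) * (2 / ε) := by positivity
    linarith
  have hKε : (2 / ‖y1 - y2‖ + C) / K < ε / 2 := by
    rw [div_lt_iff₀ (by linarith), hK]
    have e : ε / 2 * (1 + (2 / ‖y1 - y2‖ + C) * (2 / ε)) = ε / 2 + (2 / ‖y1 - y2‖ + C) := by
      field_simp
    rw [e]
    linarith
  -- the finite bad set
  have hB1 : {γ : Γ | ‖mob (s γ) 0‖ ≤ r'}.Finite := hFu.disc r' hr'1
  have hB2 : {γ : Γ | γ ≠ 1 ∧ ‖Ri γ 1 0‖ ≤ K}.Finite :=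
    finite_small (fun γ => Ri γ 1 0) (fun γ hγ => (hE3 γ hγ).1) C4 hE4 K (by linarith)
  have hB : (({γ : Γ | ‖mob (s γ) 0‖ ≤ r'} ∪ {γ : Γ | γ ≠ 1 ∧ ‖Ri γ 1 0‖ ≤ K}) ∪ {1}).Finite :=
    (hB1.union hB2).union (Set.finite_singleton 1)
  obtain ⟨ρ, hρ1, hρ⟩ := finite_bound hSUB s hFj.su r hr1 _ hB
  -- a point `u`
  have hcomp : IsCompact (g '' Metric.closedBall 0 ρ) := by
    apply (isCompact_closedBall (0 : ℂ) ρ).image_of_continuousOn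
    exact hgd.continuousOn.mono (Metric.closedBall_subset_ball hρ1)
  have hnh1 : (g '' Metric.closedBall 0 ρ)ᶜ ∈ 𝓝 η := by
    apply hcomp.isClosed.isOpen_compl.mem_nhds
    rintro ⟨u, hu, hgu⟩
    exact hηn ⟨u, Metric.closedBall_subset_ball hρ1 hu, hgu⟩
  have hnh2 : {z : ℂ | dist (x0 + η⁻¹) (x0 + z⁻¹) < ε / 2} ∈ 𝓝 η := by
    have hct : ContinuousAt (fun z : ℂ => x0 + z⁻¹) η :=
      continuousAt_const.add (continuousAt_inv₀ hη0)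
    have := Metric.tendsto_nhds.1 hct (ε / 2) (by positivity)
    filter_upwards [this] with z hz
    rw [dist_comm]
    exact hz
  have hnh3 : {z : ℂ | z ≠ 0} ∈ 𝓝 η := isOpen_ne.mem_nhds hη0
  obtain ⟨z, ⟨⟨hz1, hz2⟩, hz3⟩, u, hu, hgu⟩ :=
    mem_closure_iff_nhds.1 hηc _ (Filter.inter_mem (Filter.inter_mem hnh1 hnh2) hnh3)
  subst hgu
  have hz2' : dist (x0 + η⁻¹) (x0 + (g u)⁻¹) < ε / 2 := hz2
  have hz3' : g u ≠ 0 := hz3
  have huρ : ρ < ‖u‖ := by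
    by_contra hcon
    exact hz1 ⟨u, mem_closedBall_zero_iff.2 (not_lt.1 hcon), rfl⟩
  -- the group element
  obtain ⟨γ', hγ'⟩ := hcoc u hu
  obtain ⟨w, hw⟩ : ∃ w, w = mob (js s γ') u := ⟨_, rfl⟩
  rw [← hw] at hγ'
  obtain ⟨γ, hγ⟩ : ∃ γ, γ = γ'⁻¹ := ⟨_, rfl⟩
  have hwu : mob (js s γ) w = u := by
    have hu1 : ‖u‖ ≤ 1 := (mem_ball_zero_iff.1 hu).le
    have hd := hSUB.2.2.2.1 (js s γ') (hFj.su γ') u hu1
    have h1 := (hSUB.2.2.2.2.2.2.2.2.2 (js s γ') u hd).1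
    rw [hγ, map_inv, hw]
    exact h1
  have hwD : w ∈ D := by
    rw [mem_ball_zero_iff]
    linarith
  have hγB : γ ∉ (({γ : Γ | ‖mob (s γ) 0‖ ≤ r'} ∪ {γ : Γ | γ ≠ 1 ∧ ‖Ri γ 1 0‖ ≤ K}) ∪ {1} : Set Γ) := by
    intro hmem
    have := hρ γ hmem w hγ'
    rw [hwu] at this
    linarith
  have hγ1 : γ ≠ 1 := fun h => hγB (Or.inr h)
  have hγr : r' < ‖mob (s γ) 0‖ := by
    by_contra hcon
    exact hγB (Or.inl (Or.inl (not_lt.1 hcon)))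
  have hγK : K < ‖Ri γ 1 0‖ := by
    by_contra hcon
    exact hγB (Or.inl (Or.inr ⟨hγ1, not_lt.1 hcon⟩))
  obtain ⟨hc0, hv1, hpv⟩ := hE3 γ hγ1
  have hvnorm : ‖(pl (s γ))⁻¹‖ = ‖mob (s γ) 0‖ := by
    have hsu := hFu.su γ
    have e1 : (pl (s γ))⁻¹ = -(s γ 1 0 / s γ 1 1) := by
      unfold pl
      rw [inv_div, div_neg]
    have e2 : mob (s γ) 0 = s γ 0 1 / s γ 1 1 := by
      unfold mob den
      rw [mul_zero, zero_add, mul_zero, zero_add]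
    have e3 : ‖s γ 1 0‖ = ‖s γ 0 1‖ := by
      rw [hsu.2, RCLike.norm_conj]
    rw [e1, e2, norm_neg, norm_div, norm_div, e3]
  obtain ⟨v, hv⟩ : ∃ v, v = (pl (s γ))⁻¹ := ⟨_, rfl⟩
  rw [← hv] at hv1 hpv hvnorm
  have hvD : v ∈ D := mem_ball_zero_iff.2 hv1
  have hvr : r' ≤ ‖v‖ := by
    rw [hvnorm]
    exact hγr.le
  have hvw : P v - P w ≠ 0 := by
    intro h0
    have h1 : v = w := hLm.pinj hvD hwD (sub_eq_zero.1 h0)
    rw [h1] at hvr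
    linarith
  obtain ⟨hdw, hPu⟩ := hE1 γ w hwD
  have hPu' : P u = mob (jj (Ri γ)) (P w) := by
    rw [← hPu]
    congr 1
    exact hwu.symm
  -- distance of `(P u)⁻¹` to `q`
  have hf := inv_formula (Ri γ) (P w) (P v) hc0 hpv hdw hvw
  rw [← hPu'] at hf
  have hKc : K ≤ ‖Ri γ 1 0‖ ^ 2 := by
    have h1 : 1 ≤ ‖Ri γ 1 0‖ := hK1.trans hγK.le
    nlinarith
  have hcc : 0 < ‖Ri γ 1 0‖ ^ 2 := by linarith
  have hdist1 : ‖(P u)⁻¹ - cn (Ri γ)‖ ≤ C / K := by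
    rw [hf, norm_div, norm_neg, norm_mul (Ri γ 1 0 ^ 2), norm_pow]
    have hpos : 0 < ‖P v - P w‖ := norm_pos_iff.2 hvw
    rw [div_le_div_iff₀ (mul_pos hcc hpos) (by linarith)]
    calc ‖P w * P v‖ * K ≤ (C * ‖P v - P w‖) * ‖Ri γ 1 0‖ ^ 2 := by
          gcongr
          exact hC w hγ' v hvD hvr
      _ = C * (‖Ri γ 1 0‖ ^ 2 * ‖P v - P w‖) := by ring
  -- a point of the concentration set
  have hyy : ∃ y ∈ Sset U G, ‖y1 - y2‖ / 2 ≤ ‖y - pl (Ri γ)‖ := by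
    by_cases hh : ‖y1 - y2‖ / 2 ≤ ‖y1 - pl (Ri γ)‖
    · exact ⟨y1, hy1, hh⟩
    · refine ⟨y2, hy2, ?_⟩
      have h1 : ‖y1 - y2‖ ≤ ‖y1 - pl (Ri γ)‖ + ‖y2 - pl (Ri γ)‖ := by
        have e : y1 - y2 = (y1 - pl (Ri γ)) - (y2 - pl (Ri γ)) := by ring
        rw [e]
        exact norm_sub_le _ _
      rw [not_le] at hh
      linarith
  obtain ⟨y, hy, hyp⟩ := hyy
  have hyne : y ≠ pl (Ri γ) := by
    intro h0
    rw [h0, sub_self, norm_zero] at hyp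
    linarith
  have hdist2 : ‖mob (Ri γ) y - cn (Ri γ)‖ ≤ (2 / ‖y1 - y2‖) / K := by
    rw [(hMBF (Ri γ) hc0).2.1 y hyne, norm_div, norm_neg, norm_one, norm_mul, norm_pow]
    have hpos : 0 < ‖y - pl (Ri γ)‖ := norm_pos_iff.2 (sub_ne_zero.2 hyne)
    rw [div_div, div_le_div_iff₀ (mul_pos hcc hpos) (mul_pos hδ (by linarith))]
    have h1 : ‖y1 - y2‖ * K ≤ (2 * ‖y - pl (Ri γ)‖) * ‖Ri γ 1 0‖ ^ 2 := by
      gcongr
      linarith
    linarith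
  refine ⟨mob (Ri γ) y, (hsin y hy γ).2, ?_⟩
  -- `(P u)⁻¹ = x0 + (g u)⁻¹`
  have hPu0 : P u ≠ 0 := by
    intro h0
    apply hz3'
    rw [hg]
    change P u / (1 - x0 * P u) = 0
    rw [h0, zero_div]
  have hgu : x0 + (g u)⁻¹ = (P u)⁻¹ := by
    rw [hg]
    change x0 + (P u / (1 - x0 * P u))⁻¹ = (P u)⁻¹
    rw [inv_div]
    field_simp
    ring
  rw [hgu] at hz2'
  have t1 := dist_triangle (x0 + η⁻¹) (P u)⁻¹ (mob (Ri γ) y)
  have t2 := dist_triangle (P u)⁻¹ (cn (Ri γ)) (mob (Ri γ) y)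
  rw [dist_eq_norm (P u)⁻¹ (cn (Ri γ)), dist_comm (cn (Ri γ)), dist_eq_norm (mob (Ri γ) y)] at t2
  have hsum : C / K + (2 / ‖y1 - y2‖) / K < ε / 2 := by
    rw [← add_div, add_comm C]
    exact hKε
  linarith

end Pool.Agent.Helper26.QE
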